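import Pool.Agent.Helper538.RemF

set_option autoImplicit false

namespace Pool.Agent.Results.MP_17c3bf_an.Klee

section
variable {X : Type} [NormedAddCommGroup X]

/-- `y` is a farthest point of `x` in `K`: `y ∈ K` and `‖x - y‖` is the supremum of `‖x - z‖`,
`z ∈ K`. -/
def IsFarthest (K : Set X) (x y : X) : Prop :=
  y ∈ K ∧ IsLUB ((fun z => ‖x - z‖) '' K) ‖x - y‖

/-- `K` is uniquely remotal: nonempty, and every point of the space has exactly one farthest
point in `K`. -/
def UniquelyRemotal (K : Set X) : Prop :=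
  K.Nonempty ∧ ∀ x : X, ∃! y : X, IsFarthest K x y
end

lemma neg :
    ¬ (∀ (X : Type) [NormedAddCommGroup X] [NormedSpace ℝ X] [CompleteSpace X],
      ¬ FiniteDimensional ℝ X →
      ∀ K : Set X,
        (∀ x : X, ∃! y : X, y ∈ K ∧ ∀ z ∈ K, dist x z ≤ dist x y) →
        ∃ a : X, K = {a}) := by
  letI i0 : OrderBot Helper538.Rem.Om := Ordinal.toTypeOrderBot (Ordinal.omega_pos 1).ne'
  haveI i3 : WellFoundedLT (WithTop Helper538.Rem.Om) := inferInstance
  letI i4 : SuccOrder (WithTop Helper538.Rem.Om) := SuccOrder.ofLinearWellFoundedLT _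
  letI i5 : TopologicalSpace (WithTop Helper538.Rem.Om) := Preorder.topology _
  haveI i6 : OrderTopology (WithTop Helper538.Rem.Om) := ⟨rfl⟩
  haveI i7 : CompactSpace (WithTop Helper538.Rem.Om) := by
    letI i1 : ConditionallyCompleteLinearOrderBot Helper538.Rem.Om :=
      WellFoundedLT.conditionallyCompleteLinearOrderBot Helper538.Rem.Om
    letI i2 : CompleteLinearOrder (WithTop Helper538.Rem.Om) := WithTop.instCompleteLinearOrder
    exact @compactSpace_of_completeLinearOrder (WithTop Helper538.Rem.Om) i2 i5 i6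
  refine Helper538.Rem.main (WithTop Helper538.Rem.Om) ?_ ?_
  · exact bot_lt_top
  · intro f hf
    have h1 : ∀ n, ∃ a : Helper538.Rem.Om, (a : WithTop Helper538.Rem.Om) = f n := fun n =>
      WithTop.ne_top_iff_exists.mp (hf n).ne
    choose g hg using h1
    obtain ⟨b, hb⟩ := Helper538.Rem.om_cof g
    refine ⟨(b : WithTop Helper538.Rem.Om), WithTop.coe_lt_top b, fun n => ?_⟩
    rw [← hg n]
    exact WithTop.coe_lt_coe.mpr (hb n)


/-- There are an infinite-dimensional real Banach space and a uniquely remotal set in it with at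
least two points. -/
theorem result :
    ∃ (X : Type) (_ : NormedAddCommGroup X) (_ : NormedSpace ℝ X),
      CompleteSpace X ∧ ¬ FiniteDimensional ℝ X ∧
        ∃ K : Set X, UniquelyRemotal K ∧ ∃ a ∈ K, ∃ b ∈ K, a ≠ b := by
  by_contra hcon
  apply neg
  intro X _ _ _ hX K hK
  have hne : K.Nonempty := by
    obtain ⟨y, ⟨hy, -⟩, -⟩ := hK 0
    exact ⟨y, hy⟩
  have hiff : ∀ x y : X, IsFarthest K x y ↔ (y ∈ K ∧ ∀ z ∈ K, dist x z ≤ dist x y) := by
    intro x y
    constructor
    · rintro ⟨h1, h2⟩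
      refine ⟨h1, fun z hz => ?_⟩
      rw [dist_eq_norm, dist_eq_norm]
      exact h2.1 ⟨z, hz, rfl⟩
    · rintro ⟨h1, h2⟩
      refine ⟨h1, ?_, ?_⟩
      · rintro _ ⟨z, hz, rfl⟩
        have := h2 z hz
        rwa [dist_eq_norm, dist_eq_norm] at this
      · intro c hc
        exact hc ⟨y, h1, rfl⟩
  obtain ⟨a, ha⟩ := hne
  refine ⟨a, ?_⟩
  by_contra hK1
  apply hcon
  refine ⟨X, inferInstance, inferInstance, inferInstance, hX, K, ⟨⟨a, ha⟩, ?_⟩, a, ha, ?_⟩
  · intro x
    obtain ⟨y, hy, hu⟩ := hK x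
    exact ⟨y, (hiff x y).2 hy, fun z hz => hu z ((hiff x z).1 hz)⟩
  · by_contra hb
    push Not at hb
    exact hK1 (Set.eq_singleton_iff_unique_mem.2 ⟨ha, fun b hbK => (hb b hbK).symm⟩)

end Pool.Agent.Results.MP_17c3bf_an.Klee
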